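import Pool.Agent.Y120.K.Defs2
import Pool.Agent.Y113.P.Fin

/-!
# The monomials form a G-system, uniformly in the shift

Job K-MON of helper120; adaptation of `Y113/P/Fin.lean`.
-/

set_option autoImplicit false

open PowerSeries Finset.HasAntidiagonal Pool.Agent.Y113
open Pool.Agent.Y120.K Pool.Agent.Y120.J
open Pool.Agent.Y120.GH hiding FF Ex

namespace Pool.Agent.Y109.K

lemma rel0 (hode : T_ODE) (s : Bool) : hS s 0 * hS s 3 - hS s 2 * hS s 1 = 1 := by
  have h : FF * G1 - F1 * GG = 1 := hode.2.2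
  cases s
  · show rescale (-1 : ℚ) FF * rescale (-1 : ℚ) G1 - rescale (-1 : ℚ) F1 * rescale (-1 : ℚ) GG = 1
    rw [← map_mul, ← map_mul, ← map_sub, h, map_one]
  · exact h

lemma rel (hode : T_ODE) (s : Bool) (g : ℕ) :
    fJ s g 0 * fJ s g 3 - fJ s g 1 * fJ s g 2 = -1 := by
  have hsub := hasSubst_sh g
  have h : PowerSeries.subst (sh g) (hS s 0 * hS s 3 - hS s 2 * hS s 1) =
      PowerSeries.subst (sh g) (1 : ℚ⟦X⟧) := by rw [rel0 hode s]
  rw [sub_eq_add_neg, PowerSeries.subst_add hsub, PowerSeries.subst_mul hsub] at h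
  have h1 : PowerSeries.subst (sh g) (-(hS s 2 * hS s 1)) =
      -(PowerSeries.subst (sh g) (hS s 2) * PowerSeries.subst (sh g) (hS s 1)) := by
    have h2 : PowerSeries.subst (sh g) (-(hS s 2 * hS s 1)) +
        PowerSeries.subst (sh g) (hS s 2 * hS s 1) = 0 := by
      rw [← PowerSeries.subst_add hsub, neg_add_cancel]
      rw [← PowerSeries.coe_substAlgHom hsub, map_zero]
    rw [PowerSeries.subst_mul hsub] at h2
    exact eq_neg_of_add_eq_zero_left h2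
  have h3 : PowerSeries.subst (sh g) (1 : ℚ⟦X⟧) = 1 := by
    rw [← PowerSeries.coe_substAlgHom hsub, map_one]
  rw [h1, h3] at h
  show PowerSeries.subst (sh g) (hS s 0) *
      (-(PowerSeries.subst (sh g) (hS s 3) - PowerSeries.subst (sh g) (hS s 2) * lg g)) -
    PowerSeries.subst (sh g) (hS s 2) *
      (-(PowerSeries.subst (sh g) (hS s 1) - PowerSeries.subst (sh g) (hS s 0) * lg g)) = -1
  linear_combination -h

lemma baseJ_eq (s : Bool) (g : ℕ) : baseJ s g = (Fin.cons 1 (fJ s g) : Fin 5 → ℚ⟦X⟧) := by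
  funext i
  fin_cases i <;> rfl

/-- all products of `Δ` functions of the base family -/
lemma words (s : Bool) {q E₀ : ℕ} {Tg : ℕ → Polynomial ℤ}
    (hE₀ : ∀ g : ℕ, GSys q (((g : ℝ) + 2) ^ E₀) (Tg g) (baseJ s g)) (Δ : ℕ) : ∃ E : ℕ, ∀ g : ℕ,
    GSys q (((g : ℝ) + 2) ^ E) (Tg g) (fun f : Fin Δ → Fin 5 => ∏ i, baseJ s g (f i)) := by
  obtain ⟨E₁, hE₁⟩ := t_prod q
  induction Δ with
  | zero =>
    refine ⟨E₀, fun g => ?_⟩
    have h1 := GSys.const (ι := Fin 0 → Fin 5) (hE₀ g).one_le (hE₀ g).degT (hE₀ g).sizeT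
    simpa using h1
  | succ Δ ih =>
    obtain ⟨E, hE⟩ := ih
    refine ⟨(max E₀ E + 1) * E₁, fun g => ?_⟩
    have h1 := (hE₀ g).mono le_rfl (base_mono (one_le_base g) (le_max_left E₀ E))
    have h2 := (hE g).mono le_rfl (base_mono (one_le_base g) (le_max_right E₀ E))
    have h3 := (hE₁ _ _ _ _ _ _ h1 h2).mono le_rfl (pow_base g _ _)
    have h4 := h3.reindex (Fin.consEquiv fun _ => Fin 5).symm
    have h5 : (fun f : Fin (Δ + 1) → Fin 5 => ∏ i, baseJ s g (f i)) = fun j =>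
        baseJ s g ((Fin.consEquiv fun _ => Fin 5).symm j).1 *
          ∏ i, baseJ s g (((Fin.consEquiv fun _ => Fin 5).symm j).2 i) := by
      funext f
      rw [Fin.prod_univ_succ]
      rfl
    rw [h5]
    exact h4

/-- the monomials in the four functions form a G-system -/
lemma mons (ho : T_ODE) (s : Bool) {q E₀ : ℕ} {Tg : ℕ → Polynomial ℤ}
    (hE₀ : ∀ g : ℕ, GSys q (((g : ℝ) + 2) ^ E₀) (Tg g) (baseJ s g)) (Δ : ℕ) : ∃ E : ℕ, ∀ g : ℕ,
    GSys q (((g : ℝ) + 2) ^ E) (Tg g) (fun e : Pool.Agent.Y113.Ex Δ => monJ s g e) := by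
  obtain ⟨E, hE⟩ := words s hE₀ Δ
  obtain ⟨E₁, hE₁⟩ := t_fam (max (Fintype.card (Fin Δ → Fin 5)) (Fintype.card (Pool.Agent.Y113.Ex Δ))) q
  refine ⟨(E + Δ + 1) * E₁, fun g => ?_⟩
  have hg1 := one_le_base g
  have h1 := (hE g).mono le_rfl (base_mono hg1 (show E ≤ E + Δ by omega))
  -- the matrices
  have hM : ∀ e : Pool.Agent.Y113.Ex Δ, ∃ f : Fin Δ → Fin 5, ∏ i, baseJ s g (f i) = monJ s g e := by
    intro e
    obtain ⟨f, hf⟩ := exists_word Δ (fun i => (e.1 i : ℕ)) e.sum_le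
    refine ⟨f, ?_⟩
    rw [baseJ_eq]
    exact hf (fJ s g)
  choose fM hfM using hM
  have hM' : ∀ f : Fin Δ → Fin 5, ∃ co : Pool.Agent.Y113.Ex Δ → ℤ, (∀ t, |((co t : ℤ) : ℝ)| ≤ 2 ^ Δ) ∧
      ∏ i, baseJ s g (f i) = ∑ t : Pool.Agent.Y113.Ex Δ, (co t : ℚ⟦X⟧) * monJ s g t := by
    intro f
    obtain ⟨e, he, he'⟩ := word_exp Δ f
    rw [Fin.sum_univ_four] at he
    obtain ⟨co, hc, hc'⟩ := reduce Δ (e 0) (e 1) (e 2) (e 3) he
    refine ⟨co, fun t => (hc t).trans (pow_le_pow_right₀ (by norm_num) (by omega)), ?_⟩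
    have e1 : ∏ i, baseJ s g (f i) = ∏ i, fJ s g i ^ e i := by
      rw [baseJ_eq]
      exact he' (fJ s g)
    rw [e1, Fin.prod_univ_four]
    refine (hc' (fJ s g 0) (fJ s g 1) (fJ s g 2) (fJ s g 3) (rel ho s g)).trans ?_
    refine Finset.sum_congr rfl fun t _ => ?_
    congr 1
    unfold monJ
    rw [Fin.prod_univ_four]
  choose co hco hco' using hM'
  classical
  have h2 := hE₁ (Fin Δ → Fin 5) (Pool.Agent.Y113.Ex Δ) (((g : ℝ) + 2) ^ (E + Δ)) (Tg g)
    (fun f => ∏ i, baseJ s g (f i)) (fun e => monJ s g e)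
    (fun e f => if f = fM e then 1 else 0) co (le_max_left _ _) (le_max_right _ _) h1 ?_ ?_ ?_ ?_
  · exact h2.mono le_rfl (pow_base g _ _)
  · intro e f
    have : (1 : ℝ) ≤ ((g : ℝ) + 2) ^ (E + Δ) := one_le_pow₀ hg1
    split_ifs
    · simpa using this
    · simp; positivity
  · intro f t
    refine (hco f t).trans ?_
    calc (2 : ℝ) ^ Δ ≤ ((g : ℝ) + 2) ^ Δ :=
          pow_le_pow_left₀ (by norm_num) (by linarith [show (0 : ℝ) ≤ g by positivity]) _
      _ ≤ _ := base_mono hg1 (by omega)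
  · intro e
    rw [Finset.sum_eq_single (fM e)]
    · rw [if_pos rfl, ← hfM e]
      simp
    · intro f _ hf
      rw [if_neg hf]
      simp
    · intro h
      exact absurd (Finset.mem_univ _) h
  · intro f
    exact hco' f

theorem t_monj (s : Bool) (h : T_BASEJ s) (hode : T_ODE) : T_MONJ s := by
  intro Δ
  obtain ⟨q, E₀, c, Tg, hE₀, hc⟩ := h
  obtain ⟨E, hE⟩ := mons hode s hE₀ Δ
  exact ⟨q, E, c, Tg, hE, hc⟩

end Pool.Agent.Y109.K
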